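import Pool.Agent.P.MP_072d80_co.Main

set_option autoImplicit false

namespace Pool.Agent.Results.MP_072d80_co.NotMaximal

open Pool.Agent.P.MP_072d80_co

/-- There are a near optimal 1-plane graph `G` and two non-adjacent vertices `u`, `v` such that
`G + uv` is 1-planar. -/
theorem result :
    ∃ (G : SimpleGraph (Fin 8)) (D : Drawing G), D.IsOnePlane ∧ D.NearOptimal ∧
      ∃ u v, u ≠ v ∧ ¬ G.Adj u v ∧ IsOnePlanar (G ⊔ SimpleGraph.edge u v) :=
  counterexample

end Pool.Agent.Results.MP_072d80_co.NotMaximal
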